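import Pool.Agent.Helper5.SR.St3
import Pool.Agent.Helper71.TU.X5aux

/-!
# SR, module STR

Straightening of a univalent function near a point of the circle.
-/

set_option autoImplicit false

namespace Pool.Agent.Helper96.SR

open Complex MeasureTheory Set Metric Filter Topology
open scoped Real
open Pool.Agent.Helper60.Rel (LH tc Admissible ClassS)
open Pool.Agent.Helper51.LT
open Helper5.SR

/-! ### Periodic functions -/

private theorem per_bdd {h : ℝ → ℝ} (hc : Continuous h) {T : ℝ} (hT : 0 < T)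
    (hp : Function.Periodic h T) : ∃ B : ℝ, ∀ t, |h t| ≤ B := by
  obtain ⟨B, hB⟩ := (isCompact_Icc (a := (0 : ℝ)) (b := T)).exists_bound_of_continuousOn
    (hc.continuousOn (s := Icc 0 T))
  refine ⟨B, fun t => ?_⟩
  obtain ⟨y, hy, e⟩ := hp.exists_mem_Ico₀ hT t
  rw [e]
  exact hB y (Ico_subset_Icc_self hy)

private theorem per_deriv {h : ℝ → ℝ} {T : ℝ} (hp : Function.Periodic h T) :
    Function.Periodic (deriv h) T := by
  intro t
  have h1 : (fun x => h (x + T)) = h := funext hp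
  rw [← deriv_comp_add_const, h1]

/-! ### The real part on the circle -/

private theorem exp_norm (t : ℝ) : ‖exp (t * I)‖ = 1 := norm_exp_ofReal_mul_I t

private theorem g_smooth {f : ℂ → ℂ} {R a : ℝ} (hR : 1 < R) (hf : DifferentiableOn ℂ f (ball 0 R)) :
    ContDiff ℝ 3 (fun t : ℝ => a - (f (exp (t * I))).re) := by
  rw [contDiff_iff_contDiffAt]
  intro t
  have hmem : exp (t * I) ∈ ball (0 : ℂ) R := by
    rw [mem_ball_zero_iff, exp_norm]
    exact hR
  have h1 : ContDiffAt ℂ 3 f (exp (t * I)) :=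
    (hf.contDiffOn isOpen_ball).contDiffAt (isOpen_ball.mem_nhds hmem)
  have h2 : ContDiffAt ℝ 3 f (exp (t * I)) := h1.restrict_scalars ℝ
  have h3 : ContDiff ℝ 3 (fun t : ℝ => exp (t * I)) :=
    Complex.contDiff_exp.comp (Complex.ofRealCLM.contDiff.mul contDiff_const)
  exact contDiffAt_const.sub (Complex.reCLM.contDiff.contDiffAt.comp t (h2.comp t h3.contDiffAt))

private theorem g_per {f : ℂ → ℂ} {a : ℝ} :
    Function.Periodic (fun t : ℝ => a - (f (exp (t * I))).re) (2 * π) := by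
  intro t
  have : exp (((t + 2 * π : ℝ) : ℂ) * I) = exp (t * I) := by
    push_cast
    rw [add_mul, Complex.exp_periodic]
  simp only [this]

private theorem g_bdd {f : ℂ → ℂ} {R a : ℝ} (hR : 1 < R) (hf : DifferentiableOn ℂ f (ball 0 R)) :
    ∃ B : ℝ, (∀ t, |deriv (deriv (fun t : ℝ => a - (f (exp (t * I))).re)) t| ≤ B) ∧
      (∀ t, |deriv (deriv (deriv (fun t : ℝ => a - (f (exp (t * I))).re))) t| ≤ B) := by
  have hs := g_smooth (a := a) hR hf
  have hp := g_per (f := f) (a := a)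
  set g : ℝ → ℝ := fun t : ℝ => a - (f (exp (t * I))).re with hg
  have c1 : ContDiff ℝ 2 (deriv g) := by
    have : ContDiff ℝ (2 + 1) g := by
      have e : (2 + 1 : WithTop ℕ∞) = 3 := by norm_num
      rw [e]; exact hs
    exact (contDiff_succ_iff_deriv.1 this).2.2
  have c2 : ContDiff ℝ 1 (deriv (deriv g)) := by
    have : ContDiff ℝ (1 + 1) (deriv g) := by
      have e : (1 + 1 : WithTop ℕ∞) = 2 := by norm_num
      rw [e]; exact c1
    exact (contDiff_succ_iff_deriv.1 this).2.2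
  have c3 : Continuous (deriv (deriv (deriv g))) := c2.continuous_deriv le_rfl
  have hpi : (0 : ℝ) < 2 * π := by positivity
  obtain ⟨B₁, h1⟩ := per_bdd c2.continuous hpi (per_deriv (per_deriv hp))
  obtain ⟨B₂, h2⟩ := per_bdd c3 hpi (per_deriv (per_deriv (per_deriv hp)))
  exact ⟨max B₁ B₂, fun t => (h1 t).trans (le_max_left _ _),
    fun t => (h2 t).trans (le_max_right _ _)⟩

/-! ### Lower Lipschitz bound -/

private theorem kap_exists (hKoe : StKoe) {f : ℂ → ℂ} {R : ℝ} (hR : 1 < R) (hf : Un f (ball 0 R)) :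
    ∃ κ : ℝ, 0 < κ ∧ (∀ z ∈ closedBall (0 : ℂ) 1, ∀ w ∈ closedBall (0 : ℂ) 1,
      2 * κ * ‖z - w‖ ≤ ‖f z - f w‖) ∧ ∀ z ∈ closedBall (0 : ℂ) 1, 2 * κ ≤ ‖deriv f z‖ := by
  have hsub : closedBall (0 : ℂ) 1 ⊆ ball 0 R := closedBall_subset_ball hR
  have hdc : ContinuousOn (fun z => ‖deriv f z‖) (closedBall 0 1) :=
    ((hf.1.deriv isOpen_ball).continuousOn.mono hsub).norm
  obtain ⟨z₀, hz₀, hmin⟩ := (isCompact_closedBall (0 : ℂ) 1).exists_isMinOn
    ⟨0, mem_closedBall_self zero_le_one⟩ hdc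
  set c : ℝ := ‖deriv f z₀‖ with hc
  have hc0 : 0 < c := by
    rw [hc, norm_pos_iff]
    exact Pool.TU.X5.deriv_ne_zero_of_injOn isOpen_ball hf.1 hf.2 (hsub hz₀)
  have hcz : ∀ z ∈ closedBall (0 : ℂ) 1, c ≤ ‖deriv f z‖ := fun z hz => hmin hz
  set d : ℝ := min (R - 1) 1 with hd
  have hd0 : 0 < d := lt_min (by linarith) one_pos
  have hd1 : d ≤ 1 := min_le_right _ _
  have hdR : d ≤ R - 1 := min_le_left _ _
  refine ⟨c * d / 16, by positivity, ?_, ?_⟩
  · intro z hz w hw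
    have hzn : ‖z‖ ≤ 1 := by simpa using hz
    have hwn : ‖w‖ ≤ 1 := by simpa using hw
    have hb : ball z d ⊆ ball 0 R := by
      intro y hy
      rw [mem_ball_zero_iff]
      rw [mem_ball, dist_eq_norm] at hy
      calc ‖y‖ = ‖(y - z) + z‖ := by ring_nf
        _ ≤ ‖y - z‖ + ‖z‖ := norm_add_le _ _
        _ < d + 1 := by linarith
        _ ≤ R := by linarith
    have h1 := hKoe f (ball 0 R) z d hd0 hb isOpen_ball hf w (hsub hw)
    have h2 : d / 2 * ‖w - z‖ ≤ min ‖w - z‖ d := by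
      have h3 : ‖w - z‖ ≤ 2 := (norm_sub_le _ _).trans (by linarith)
      refine le_min ?_ ?_
      · nlinarith [norm_nonneg (w - z)]
      · nlinarith [norm_nonneg (w - z)]
    have h4 : c * (d / 2 * ‖w - z‖) ≤ ‖deriv f z‖ * min ‖w - z‖ d :=
      mul_le_mul (hcz z hz) h2 (by positivity) (norm_nonneg _)
    rw [norm_sub_rev z w, norm_sub_rev (f z) (f w)]
    have h5 : 2 * (c * d / 16) * ‖w - z‖ = (c * (d / 2 * ‖w - z‖)) / 4 := by ring
    rw [h5]
    linarith
  · intro z hz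
    have := hcz z hz
    have h1 : 2 * (c * d / 16) ≤ c := by nlinarith
    linarith

private theorem lip_exists {f : ℂ → ℂ} {R : ℝ} (hR : 1 < R) (hf : DifferentiableOn ℂ f (ball 0 R)) :
    ∃ Λ : ℝ, 0 ≤ Λ ∧ ∀ z ∈ closedBall (0 : ℂ) 1, ∀ w ∈ closedBall (0 : ℂ) 1,
      ‖f z - f w‖ ≤ Λ * ‖z - w‖ := by
  have hsub : closedBall (0 : ℂ) 1 ⊆ ball 0 R := closedBall_subset_ball hR
  obtain ⟨Λ, hΛ⟩ := (isCompact_closedBall (0 : ℂ) 1).exists_bound_of_continuousOn
    ((hf.deriv isOpen_ball).continuousOn.mono hsub)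
  refine ⟨Λ, (norm_nonneg _).trans (hΛ 0 (mem_closedBall_self zero_le_one)), ?_⟩
  intro z hz w hw
  exact (convex_closedBall (0 : ℂ) 1).norm_image_sub_le_of_norm_deriv_le
    (fun x hx => hf.differentiableAt (isOpen_ball.mem_nhds (hsub hx))) hΛ hw hz

/-- Lipschitz up to the boundary -/
private theorem lip_closed {p : ℂ → ℂ} {e : ℝ} (hd : DifferentiableOn ℂ p (ball 0 1))
    (hc : ContinuousOn p (closedBall 0 1)) (he : ∀ z ∈ ball (0 : ℂ) 1, ‖deriv p z‖ ≤ e) :
    ∀ z ∈ closedBall (0 : ℂ) 1, ∀ w ∈ closedBall (0 : ℂ) 1, ‖p z - p w‖ ≤ e * ‖z - w‖ := by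
  intro z hz w hw
  have hzn : ‖z‖ ≤ 1 := by simpa using hz
  have hwn : ‖w‖ ≤ 1 := by simpa using hw
  have hmem : ∀ x : ℂ, ‖x‖ ≤ 1 → ∀ r : ℝ, 0 ≤ r → r < 1 → (r : ℂ) * x ∈ ball (0 : ℂ) 1 := by
    intro x hx r hr0 hr1
    rw [mem_ball_zero_iff, norm_mul, Complex.norm_real, Real.norm_eq_abs, abs_of_nonneg hr0]
    nlinarith [norm_nonneg x]
  have hlim : ∀ x : ℂ, ‖x‖ ≤ 1 →
      Tendsto (fun r : ℝ => p ((r : ℂ) * x)) (𝓝[Ico 0 1] 1) (𝓝 (p x)) := by
    intro x hx
    have h1 : Tendsto (fun r : ℝ => (r : ℂ) * x) (𝓝[Ico 0 1] 1) (𝓝[closedBall 0 1] x) := by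
      refine tendsto_nhdsWithin_iff.2 ⟨?_, ?_⟩
      · have hcont : Continuous (fun r : ℝ => (r : ℂ) * x) := by fun_prop
        have := hcont.tendsto 1
        simp only [ofReal_one, one_mul] at this
        exact this.mono_left nhdsWithin_le_nhds
      · filter_upwards [self_mem_nhdsWithin] with r hr
        exact ball_subset_closedBall (hmem x hx r hr.1 hr.2)
    have h2 : Tendsto p (𝓝[closedBall 0 1] x) (𝓝 (p x)) := hc x (by simpa using hx)
    exact h2.comp h1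
  have hne : (𝓝[Ico 0 1] (1 : ℝ)).NeBot := by
    rw [← mem_closure_iff_nhdsWithin_neBot, closure_Ico (by norm_num)]
    exact ⟨zero_le_one, le_rfl⟩
  have hL : Tendsto (fun r : ℝ => ‖p ((r : ℂ) * z) - p ((r : ℂ) * w)‖) (𝓝[Ico 0 1] 1)
      (𝓝 ‖p z - p w‖) := ((hlim z hzn).sub (hlim w hwn)).norm
  have hRt : Tendsto (fun r : ℝ => e * ‖(r : ℂ) * z - (r : ℂ) * w‖) (𝓝[Ico 0 1] 1)
      (𝓝 (e * ‖z - w‖)) := by
    have hcont : Continuous (fun r : ℝ => e * ‖(r : ℂ) * z - (r : ℂ) * w‖) := by fun_prop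
    have := hcont.tendsto 1
    simp only [ofReal_one, one_mul] at this
    exact this.mono_left nhdsWithin_le_nhds
  refine le_of_tendsto_of_tendsto hL hRt ?_
  filter_upwards [self_mem_nhdsWithin] with r hr
  exact (convex_ball (0 : ℂ) 1).norm_image_sub_le_of_norm_deriv_le
    (fun x hx => hd.differentiableAt (isOpen_ball.mem_nhds hx)) he
    (hmem w hwn r hr.1 hr.2) (hmem z hzn r hr.1 hr.2)

/-! ### Numbers -/

private theorem small_delta (D m : ℝ) (hD : 0 ≤ D) (hm : 0 < m) :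
    ∃ δ : ℝ, 0 < δ ∧ δ ≤ 1 ∧ D * δ * (1 + Real.log (1 / δ)) ≤ m := by
  set s : ℝ := min 1 (m / (3 * (D + 1))) with hs
  have hs0 : 0 < s := lt_min one_pos (by positivity)
  have hs1 : s ≤ 1 := min_le_left _ _
  have hs2 : s ≤ m / (3 * (D + 1)) := min_le_right _ _
  refine ⟨s ^ 2, by positivity, by nlinarith, ?_⟩
  have hlog : Real.log (1 / s ^ 2) = -(2 * Real.log s) := by
    rw [one_div, Real.log_inv, Real.log_pow]
    push_cast
    ring
  have h1 : 1 - s⁻¹ ≤ Real.log s := Real.one_sub_inv_le_log_of_pos hs0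
  have h2 : s ^ 2 * (1 + Real.log (1 / s ^ 2)) ≤ 2 * s := by
    rw [hlog]
    have h3 : 1 + -(2 * Real.log s) ≤ 2 * s⁻¹ - 1 := by linarith
    have h4 : s ^ 2 * (1 + -(2 * Real.log s)) ≤ s ^ 2 * (2 * s⁻¹ - 1) :=
      mul_le_mul_of_nonneg_left h3 (by positivity)
    have h5 : s ^ 2 * (2 * s⁻¹ - 1) = 2 * s - s ^ 2 := by
      field_simp
    rw [h5] at h4
    nlinarith
  have h6 : D * (s ^ 2 * (1 + Real.log (1 / s ^ 2))) ≤ D * (2 * s) :=
    mul_le_mul_of_nonneg_left h2 hD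
  have h7 : s * (3 * (D + 1)) ≤ m := by
    rwa [le_div_iff₀ (by positivity)] at hs2
  have h8 : D * (2 * s) ≤ m := by nlinarith
  calc D * s ^ 2 * (1 + Real.log (1 / s ^ 2))
      = D * (s ^ 2 * (1 + Real.log (1 / s ^ 2))) := by ring
    _ ≤ m := h6.trans h8

/-! ### Straightening -/

private theorem circle_angle {z : ℂ} (hz : ‖z‖ = 1) (θ : ℝ) :
    ∃ t : ℝ, |t - θ| ≤ π ∧ z = exp (t * I) := by
  refine ⟨θ + arg (z * exp (-(θ * I))), ?_, ?_⟩
  · rw [add_sub_cancel_left]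
    exact abs_arg_le_pi _
  · have h1 : ‖z * exp (-(θ * I))‖ = 1 := by
      rw [norm_mul, hz, one_mul, ← neg_mul, ← ofReal_neg]
      exact exp_norm _
    have h2 := norm_mul_exp_arg_mul_I (z * exp (-(θ * I)))
    rw [h1] at h2
    push_cast
    rw [add_mul, Complex.exp_add]
    simp only [ofReal_one, one_mul] at h2
    rw [h2, mul_comm z, ← mul_assoc, ← Complex.exp_add, add_neg_cancel, Complex.exp_zero, one_mul]

theorem hStr (hKoe : StKoe) (hCut : StCut) (hFou : StFou) : StStr := by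
  intro f R η hR hf hf0 hη
  have hsub : closedBall (0 : ℂ) 1 ⊆ ball 0 R := closedBall_subset_ball hR
  have hsub' : ball (0 : ℂ) 1 ⊆ ball 0 R := ball_subset_ball hR.le
  have hfc : ContinuousOn f (closedBall 0 1) := hf.1.continuousOn.mono hsub
  -- the maximum of the real part on the circle
  obtain ⟨z₁, hz₁, hmax⟩ := (isCompact_sphere (0 : ℂ) 1).exists_isMaxOn
    ⟨1, by simp⟩ (Complex.continuous_re.comp_continuousOn (hfc.mono sphere_subset_closedBall))
  have hz₁n : ‖z₁‖ = 1 := by simpa using hz₁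
  obtain ⟨θ, -, hθ⟩ := circle_angle hz₁n 0
  set a₁ : ℝ := (f z₁).re with ha₁
  have hgn : ∀ t : ℝ, 0 ≤ a₁ - (f (exp (t * I))).re := by
    intro t
    have : (f (exp (t * I))).re ≤ (f z₁).re :=
      hmax (show exp (t * I) ∈ sphere (0 : ℂ) 1 by rw [mem_sphere_zero_iff_norm, exp_norm])
    linarith
  have hg0 : a₁ - (f (exp (θ * I))).re = 0 := by
    rw [← hθ]
    ring
  have hgs := g_smooth (a := a₁) hR hf.1
  obtain ⟨B, hB1, hB2⟩ := g_bdd (a := a₁) hR hf.1
  have hB0 : 0 ≤ B := (abs_nonneg _).trans (hB1 0)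
  have hgd : deriv (fun t : ℝ => a₁ - (f (exp (t * I))).re) θ = 0 := by
    have hmin : IsLocalMin (fun t : ℝ => a₁ - (f (exp (t * I))).re) θ := by
      refine Filter.Eventually.of_forall (fun t => ?_)
      simp only [hg0]
      exact hgn t
    exact hmin.deriv_eq_zero
  -- constants
  obtain ⟨κ, hκ, hlow, hdlow⟩ := kap_exists hKoe hR hf
  obtain ⟨Λ, hΛ0, hΛ⟩ := lip_exists hR hf.1
  obtain ⟨C₁, hC₁, hcut⟩ := hCut
  obtain ⟨C₂, hC₂, hfou⟩ := hFou
  have hm : 0 < min κ η := lt_min hκ hη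
  obtain ⟨δ, hδ0, hδ1, hδe⟩ := small_delta (C₂ * (C₁ * B)) (min κ η) (by positivity) hm
  obtain ⟨u, hu, hu0, hu2, hu3, hueq, hule⟩ := hcut (fun t : ℝ => a₁ - (f (exp (t * I))).re) θ B δ
    hgs hg0 hgd hB1 hB2 hδ0 hδ1
  obtain ⟨p, hpd, hpc, hpe, -, hpu⟩ := hfou u θ δ (C₁ * B) hu hδ0 hδ1 hu0 hu2 hu3
  set e : ℝ := min κ η with he
  have heκ : e ≤ κ := min_le_left _ _
  have heη : e ≤ η := min_le_right _ _
  have hpe' : ∀ z ∈ ball (0 : ℂ) 1, ‖deriv p z‖ ≤ e := fun z hz => (hpe z hz).trans hδe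
  have hplip := lip_closed hpd hpc hpe'
  -- the new function
  set f₀ : ℂ → ℂ := fun z => f z + (p z - p 0) with hf₀
  set a : ℝ := a₁ - (p 0).re with ha
  have h0c : (0 : ℂ) ∈ closedBall (0 : ℂ) 1 := mem_closedBall_self zero_le_one
  have h0b : (0 : ℂ) ∈ ball (0 : ℂ) 1 := mem_ball_self one_pos
  have hf₀d : DifferentiableOn ℂ f₀ (ball 0 1) :=
    (hf.1.mono hsub').add (hpd.sub_const (p 0))
  have hf₀c : ContinuousOn f₀ (closedBall 0 1) := hfc.add (hpc.sub continuousOn_const)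
  have hlow₀ : ∀ z ∈ closedBall (0 : ℂ) 1, ∀ w ∈ closedBall (0 : ℂ) 1,
      κ * ‖z - w‖ ≤ ‖f₀ z - f₀ w‖ := by
    intro z hz w hw
    have h1 := hlow z hz w hw
    have h2 := hplip z hz w hw
    have h3 : f₀ z - f₀ w = (f z - f w) + (p z - p w) := by
      simp only [hf₀]
      ring
    have h4 : ‖f z - f w‖ ≤ ‖f₀ z - f₀ w‖ + ‖p z - p w‖ := by
      have : f z - f w = (f₀ z - f₀ w) - (p z - p w) := by rw [h3]; ring
      rw [this]
      exact norm_sub_le _ _
    have h5 : e * ‖z - w‖ ≤ κ * ‖z - w‖ := mul_le_mul_of_nonneg_right heκ (norm_nonneg _)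
    linarith
  have hinj : InjOn f₀ (closedBall 0 1) := by
    intro z hz w hw hzw
    have h1 := hlow₀ z hz w hw
    rw [hzw, sub_self, norm_zero] at h1
    have h2 : ‖z - w‖ ≤ 0 := by
      by_contra hcon
      push Not at hcon
      have : 0 < κ * ‖z - w‖ := mul_pos hκ hcon
      linarith
    exact sub_eq_zero.1 (norm_le_zero_iff.1 h2)
  have hcirc : ∀ z : ℂ, ‖z‖ = 1 → (f₀ z).re ≤ a := by
    intro z hz
    obtain ⟨t, ht, rfl⟩ := circle_angle hz θ
    have h1 := hpu t ht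
    have h2 : u t ≤ a₁ - (f (exp (t * I))).re := (hule t (hgn t)).2
    simp only [hf₀, ha, add_re, sub_re]
    linarith
  have hdc : DiffContOnCl ℂ (fun z => exp (f₀ z)) (ball 0 1) := by
    refine ⟨hf₀d.cexp, ?_⟩
    rw [closure_ball _ one_ne_zero]
    exact hf₀c.cexp
  have hball_le : ∀ z ∈ ball (0 : ℂ) 1, (f₀ z).re ≤ a := by
    intro z hz
    have h1 := Complex.norm_le_of_forall_mem_frontier_norm_le (isBounded_ball) hdc
      (C := Real.exp a) (by
        intro w hw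
        rw [frontier_ball _ one_ne_zero] at hw
        rw [norm_exp]
        exact Real.exp_le_exp.2 (hcirc w (by simpa using hw)))
      (subset_closure hz)
    rw [norm_exp] at h1
    exact Real.exp_le_exp.1 h1
  have hball_lt : ∀ z ∈ ball (0 : ℂ) 1, (f₀ z).re < a := by
    intro z hz
    have hop : IsOpen (f₀ '' ball 0 1) := Pool.TU.X5.isOpen_image_of_injOn isOpen_ball hf₀d
      (hinj.mono ball_subset_closedBall)
    obtain ⟨ε, hε, hεs⟩ := Metric.isOpen_iff.1 hop (f₀ z) (mem_image_of_mem _ hz)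
    have hmem : f₀ z + ((ε / 2 : ℝ) : ℂ) ∈ ball (f₀ z) ε := by
      rw [mem_ball, dist_eq_norm, add_sub_cancel_left, Complex.norm_real, Real.norm_eq_abs,
        abs_of_pos (half_pos hε)]
      linarith
    obtain ⟨w, hw, hwe⟩ := hεs hmem
    have h1 := hball_le w hw
    rw [hwe, add_re, ofReal_re] at h1
    linarith
  refine ⟨f₀, a, θ, δ / 2, κ, Λ + e, ⟨⟨hf₀d, hinj.mono ball_subset_closedBall⟩, ?_, hinj, ?_, hκ, ?_,
    hball_lt, by positivity, ?_⟩, ?_, ?_⟩
  · simp [hf₀, hf0]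
  · intro x hx y hy
    have h1 := hΛ x hx y hy
    have h2 := hplip x hx y hy
    have h3 : f₀ x - f₀ y = (f x - f y) + (p x - p y) := by
      simp only [hf₀]
      ring
    rw [h3]
    calc ‖(f x - f y) + (p x - p y)‖ ≤ ‖f x - f y‖ + ‖p x - p y‖ := norm_add_le _ _
      _ ≤ (Λ + e) * ‖x - y‖ := by linarith
  · intro x hx
    have hdx : deriv f₀ x = deriv f x + deriv p x := by
      have h1 := (hf.1.differentiableAt (isOpen_ball.mem_nhds (hsub' hx))).hasDerivAt
      have h2 := (hpd.differentiableAt (isOpen_ball.mem_nhds hx)).hasDerivAt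
      exact (h1.add (h2.sub_const (p 0))).deriv
    have h1 := hdlow x (ball_subset_closedBall hx)
    have h2 := hpe' x hx
    have h3 : ‖deriv f x‖ ≤ ‖deriv f₀ x‖ + ‖deriv p x‖ := by
      have : deriv f x = deriv f₀ x - deriv p x := by rw [hdx]; ring
      rw [this]
      exact norm_sub_le _ _
    linarith
  · intro t ht
    have hpi := Real.pi_gt_three
    have h1 := hpu t (by linarith)
    have h2 := hueq t ht
    simp only [hf₀, ha, add_re, sub_re]
    rw [h1, h2]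
    ring
  · intro z hz
    have h1 := hplip z (ball_subset_closedBall hz) 0 h0c
    have hzn : ‖z‖ < 1 := by simpa using hz
    have he0 : 0 ≤ e := hm.le
    have h2 : f₀ z - f z = p z - p 0 := by
      simp only [hf₀]
      ring
    rw [h2]
    rw [sub_zero] at h1
    have h3 : e * ‖z‖ ≤ e * 1 := mul_le_mul_of_nonneg_left hzn.le he0
    linarith
  · have h1 := (hf.1.differentiableAt (isOpen_ball.mem_nhds (hsub' h0b))).hasDerivAt
    have h2 := (hpd.differentiableAt (isOpen_ball.mem_nhds h0b)).hasDerivAt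
    have h3 : deriv f₀ 0 = deriv f 0 + deriv p 0 := (h1.add (h2.sub_const (p 0))).deriv
    rw [h3, add_sub_cancel_left]
    exact (hpe' 0 h0b).trans heη

end Pool.Agent.Helper96.SR
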